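import Mathlib

namespace Pool.Agent.Results.MP_76b19e_co.Two

open Finset

/-- degree of a vertex -/
noncomputable def deg {n : ℕ} (G : SimpleGraph (Fin n)) (v : Fin n) : ℕ := (G.neighborSet v).ncard

/-- `G` has maximum degree `k`. -/
def MaxDeg {n : ℕ} (G : SimpleGraph (Fin n)) (k : ℕ) : Prop :=
  (∀ v, deg G v ≤ k) ∧ ∃ v, deg G v = k

/-- No `r`-partite graph on the same number of vertices degree-majorizes `G`. -/
def NonMaj {n : ℕ} (r : ℕ) (G : SimpleGraph (Fin n)) : Prop :=
  ¬ ∃ (H : SimpleGraph (Fin n)) (σ : Equiv.Perm (Fin n)),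
    H.Colorable r ∧ ∀ v, deg G v ≤ deg H (σ v)

/-- The set of numbers of copies of the complete graph on `r+1` vertices that occur. -/
def Vals (n k r : ℕ) : Set ℕ :=
  {c | ∃ G : SimpleGraph (Fin n), MaxDeg G k ∧ NonMaj r G ∧ (G.cliqueSet (r + 1)).ncard = c}

theorem deg_eq {n : ℕ} (G : SimpleGraph (Fin n)) (v : Fin n) (T : Finset (Fin n))
    (h : ∀ x, G.Adj v x ↔ x ∈ T) : deg G v = T.card := by
  rw [deg, ← Set.ncard_coe_finset]
  congr 1
  ext x
  simp [h]

theorem deg_le {n : ℕ} (G : SimpleGraph (Fin n)) (v : Fin n) (T : Finset (Fin n))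
    (h : ∀ x, G.Adj v x → x ∈ T) : deg G v ≤ T.card := by
  rw [deg, ← Set.ncard_coe_finset]
  exact Set.ncard_le_ncard (fun x hx => h x hx) (Set.toFinite _)

/-- comparison with a complete bipartite graph -/
theorem bip {n : ℕ} (G : SimpleGraph (Fin n)) (A : Finset (Fin n))
    (h1 : ∀ v ∈ A, deg G v ≤ n - A.card) (h2 : ∀ v, v ∉ A → deg G v ≤ A.card) : ¬ NonMaj 2 G := by
  intro h
  apply h
  let H : SimpleGraph (Fin n) := SimpleGraph.fromRel fun u v => u ∈ A ∧ v ∉ A
  have hadj : ∀ u v, H.Adj u v ↔ (u ∈ A ∧ v ∉ A) ∨ (v ∈ A ∧ u ∉ A) := by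
    intro u v
    simp only [H, SimpleGraph.fromRel_adj]
    constructor
    · exact fun h => h.2
    · intro h
      refine ⟨?_, h⟩
      rintro rfl
      tauto
  refine ⟨H, 1, ⟨SimpleGraph.Coloring.mk (fun v => if v ∈ A then 0 else 1) ?_⟩, fun v => ?_⟩
  · intro u v huv
    rcases (hadj u v).1 huv with h | h <;> simp [h.1, h.2]
  · show deg G v ≤ deg H v
    by_cases hv : v ∈ A
    · rw [deg_eq H v Aᶜ (fun x => by rw [hadj, mem_compl]; tauto), card_compl, Fintype.card_fin]
      exact h1 v hv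
    · rw [deg_eq H v A (fun x => by rw [hadj]; tauto)]
      exact h2 v hv

theorem fin2 : ∀ a b c : Fin 2, a ≠ b → ¬ a = c → b = c := by decide

theorem nonmaj {n k : ℕ} (G : SimpleGraph (Fin n)) (v : Fin n) (hv : deg G v = k)
    (S : Finset (Fin n)) (hS : n - k < S.card) (h : ∀ x ∈ S, n - k < deg G x) : NonMaj 2 G := by
  rintro ⟨H, σ, ⟨C⟩, hH⟩
  set X := univ.filter fun x => C x = C (σ v) with hX
  have h1 : deg H (σ v) ≤ Xᶜ.card := deg_le H _ _ fun x hx => by
    simp only [hX, mem_compl, mem_filter, mem_univ, true_and]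
    exact (C.valid hx).symm
  rw [card_compl, Fintype.card_fin] at h1
  have h0 : X.card ≤ n := by simpa using card_le_univ X
  have h2 := hH v
  have h3 : S.map σ.toEmbedding ⊆ X := by
    intro y hy
    obtain ⟨x, hx, rfl⟩ := mem_map.1 hy
    by_contra hc
    have h4 : deg H (σ x) ≤ X.card := deg_le H _ _ fun z hz => by
      simp only [hX, mem_filter, mem_univ, true_and, Equiv.coe_toEmbedding] at hc ⊢
      exact fin2 _ _ _ (C.valid hz) hc
    have := h x hx
    have := hH x
    omega
  have h5 := card_le_card h3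
  rw [card_map] at h5
  omega

theorem result (n k : ℕ) :
    (2 * k ≤ n → Vals n k 2 = ∅) ∧ (n + 2 ≤ 2 * k → k < n → IsLeast (Vals n k 2) 1) := by
  constructor
  · intro hk
    rw [Set.eq_empty_iff_forall_notMem]
    rintro c ⟨G, ⟨hd, -⟩, hN, -⟩
    obtain ⟨A, -, hA⟩ := exists_subset_card_eq (s := (univ : Finset (Fin n))) (n := k)
      (by simp; omega)
    exact bip G A (fun v _ => (hd v).trans (by omega)) (fun v _ => hA ▸ hd v) hN
  intro hk hn
  constructor
  · obtain ⟨A, -, hA⟩ := exists_subset_card_eq (s := (univ : Finset (Fin n))) (n := k)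
      (by simp; omega)
    obtain ⟨u, hu, w, hw, huw⟩ := one_lt_card.1 (by omega : 1 < A.card)
    have hAc : Aᶜ.card = n - k := by rw [card_compl, Fintype.card_fin, hA]
    obtain ⟨v, hv'⟩ : Aᶜ.Nonempty := card_pos.1 (by omega)
    have hv : v ∉ A := mem_compl.1 hv'
    let G : SimpleGraph (Fin n) := SimpleGraph.fromRel fun x y =>
      (x ∉ A ∧ y ∈ A ∧ (y ≠ w ∨ x = v)) ∨ (x = u ∧ y = w)
    have hadj : ∀ x y, G.Adj x y ↔ x ≠ y ∧ (((x ∉ A ∧ y ∈ A ∧ (y ≠ w ∨ x = v)) ∨ (x = u ∧ y = w)) ∨
        ((y ∉ A ∧ x ∈ A ∧ (x ≠ w ∨ y = v)) ∨ (y = u ∧ x = w))) := fun x y => by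
      simp only [G, SimpleGraph.fromRel_adj]
    have dv : deg G v = k := by
      rw [deg_eq G v A (fun x => by rw [hadj]; grind), hA]
    have du : deg G u = n - k + 1 := by
      rw [deg_eq G u (insert w Aᶜ) (fun x => by rw [hadj, mem_insert, mem_compl]; grind),
        card_insert_of_notMem (by simpa using hw), hAc]
    have dr : ∀ x, x ∉ A → x ≠ v → deg G x = k - 1 := fun x hx hxv => by
      rw [deg_eq G x (A.erase w) (fun y => by rw [hadj, mem_erase]; grind), card_erase_of_mem hw, hA]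
    refine ⟨G, ⟨fun x => ?_, v, dv⟩, nonmaj G v dv (insert u Aᶜ) ?_ ?_, ?_⟩
    · by_cases hx : x ∈ A
      · by_cases hxu : x = u
        · rw [hxu, du]; omega
        by_cases hxw : x = w
        · have := deg_le G x {u, v} fun y hy => by
            rw [hadj] at hy; rw [mem_insert, mem_singleton]; grind
          have h2 : ({u, v} : Finset (Fin n)).card ≤ 2 := card_le_two
          omega
        · have := deg_le G x Aᶜ fun y hy => by rw [hadj] at hy; rw [mem_compl]; grind
          omega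
      · have := deg_le G x A fun y hy => by rw [hadj] at hy; grind
        omega
    · rw [card_insert_of_notMem (by simpa using hu), hAc]; omega
    · intro x hx
      rcases mem_insert.1 hx with rfl | hx
      · omega
      · by_cases hxv : x = v
        · rw [hxv, dv]; omega
        · rw [dr x (mem_compl.1 hx) hxv]; omega
    · rw [Set.ncard_eq_one]
      refine ⟨{v, u, w}, ?_⟩
      ext s
      rw [SimpleGraph.mem_cliqueSet_iff, Set.mem_singleton_iff, SimpleGraph.is3Clique_iff]
      constructor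
      · rintro ⟨a, b, c, h1, h2, h3, rfl⟩
        rw [hadj] at h1 h2 h3
        ext x
        simp only [mem_insert, mem_singleton]
        grind
      · rintro rfl
        refine ⟨v, u, w, ?_, ?_, ?_, rfl⟩ <;> rw [hadj] <;> grind
  · rintro c ⟨G, ⟨hd, v, hv⟩, hN, rfl⟩
    by_contra hc
    have h0 : G.cliqueSet (2 + 1) = ∅ := by
      rw [← Set.ncard_eq_zero (Set.toFinite _)]; omega
    set A := (Set.toFinite (G.neighborSet v)).toFinset with hA
    have hmem : ∀ x, x ∈ A ↔ G.Adj v x := fun x => by simp [hA]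
    have hAc : A.card = k := by rw [← hv, deg_eq G v A fun x => (hmem x).symm]
    refine bip G A (fun x hx => ?_) (fun x _ => hAc ▸ hd x) hN
    have := deg_le G x Aᶜ fun y hy => by
      rw [mem_compl]
      intro hyA
      have h3 : ({v, x, y} : Finset (Fin n)) ∈ G.cliqueSet (2 + 1) := by
        rw [SimpleGraph.mem_cliqueSet_iff]
        exact SimpleGraph.is3Clique_iff.2 ⟨v, x, y, (hmem x).1 hx, (hmem y).1 hyA, hy, rfl⟩
      rw [h0] at h3
      exact h3
    rwa [card_compl, Fintype.card_fin] at this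

end Pool.Agent.Results.MP_76b19e_co.Two
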